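import Pool.Agent.PX.Stmts

set_option autoImplicit false

/-!
# Squad PX, row GAX: the interaction relation of a list of forms
-/

namespace Pool.Agent.PX.H48

open MvPolynomial

variable {E : Type} [Field E]

/-- `x_j` occurs in `∂_i g` exactly if the mixed derivative does not vanish; so the relation is symmetric. -/
theorem vars_symm [CharZero E] {g : MvPolynomial ℕ E} {i j : ℕ} (h : j ∈ (pderiv i g).vars) :
    i ∈ (pderiv j g).vars := by
  by_contra hi
  have h1 : pderiv i (pderiv j g) = 0 := pderiv_eq_zero_of_notMem_vars hi
  rw [Pool.Agent.PW.H99.pd_comm] at h1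
  exact Pool.Agent.PW.H58.notMem_vars j _ h1 h

/-- The relation of a list. -/
noncomputable def rel : List (MvPolynomial ℕ E) → ℕ → Finset ℕ
  | [], i => {i}
  | g :: b, i => rel b i ∪ (pderiv i g).vars

theorem rel_refl (b : List (MvPolynomial ℕ E)) (i : ℕ) : i ∈ rel b i := by
  induction b with
  | nil => exact Finset.mem_singleton_self i
  | cons g b ih => exact Finset.mem_union_left _ ih

theorem rel_symm [CharZero E] (b : List (MvPolynomial ℕ E)) (i j : ℕ) (h : j ∈ rel b i) :
    i ∈ rel b j := by
  induction b with
  | nil =>
    have h1 : j = i := Finset.mem_singleton.1 h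
    subst h1
    exact h
  | cons g b ih =>
    rcases Finset.mem_union.1 h with h1 | h1
    · exact Finset.mem_union_left _ (ih h1)
    · exact Finset.mem_union_right _ (vars_symm h1)

theorem rel_card {c : ℕ} (b : List (MvPolynomial ℕ E)) (hb : ∀ g ∈ b, IsLo c g) (i : ℕ) :
    (rel b i).card ≤ b.length * c + 1 := by
  induction b with
  | nil => exact le_of_eq_of_le (Finset.card_singleton i) (by omega)
  | cons g b ih =>
    have h1 := ih fun g' hg' => hb g' (List.mem_cons_of_mem _ hg')
    have h2 := hb g List.mem_cons_self i
    have h3 : (rel (g :: b) i).card ≤ (rel b i).card + (pderiv i g).vars.card :=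
      Finset.card_union_le _ _
    rw [List.length_cons, Nat.succ_mul]
    omega

theorem rel_isG (b : List (MvPolynomial ℕ E)) (g : MvPolynomial ℕ E) (hg : g ∈ b) :
    IsG (rel b) g := by
  induction b with
  | nil => exact absurd hg List.not_mem_nil
  | cons g' b ih =>
    intro i j hj
    rcases List.mem_cons.1 hg with h1 | h1
    · subst h1
      exact Finset.mem_union_right _ hj
    · exact Finset.mem_union_left _ (ih h1 i hj)

theorem gax : GaxStmt := by
  intro E _ _
  refine ⟨?_, ?_, ?_, ?_⟩
  · intro c R b hR hb
    refine ⟨rel b, ⟨rel_refl b, rel_symm b, fun i => ?_⟩, rel_isG b⟩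
    have h1 := rel_card b hb i
    have h2 : b.length * c ≤ R * c := Nat.mul_le_mul_right c hR
    omega
  · intro Γ
    refine ⟨{ carrier := {f | IsG Γ f}, add_mem' := ?_, zero_mem' := ?_, smul_mem' := ?_ },
      fun f => Iff.rfl⟩
    · intro f g hf hg i j hj
      rw [map_add] at hj
      rcases Finset.mem_union.1 (vars_add_subset _ _ hj) with h | h
      · exact hf i h
      · exact hg i h
    · intro i j hj
      rw [map_zero, vars_0] at hj
      exact absurd hj (Finset.notMem_empty j)
    · intro a f hf i j hj
      rw [Derivation.map_smul, smul_eq_C_mul] at hj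
      rcases Finset.mem_union.1 (vars_mul _ _ hj) with h | h
      · rw [vars_C] at h
        exact absurd h (Finset.notMem_empty j)
      · exact hf i h
  · intro Γ Γ' g h hg i
    exact (hg i).trans (h i)
  · intro Γ Γ' s s' h h'
    refine ⟨fun i => Finset.mem_union_left _ (h.refl i), fun i j hj => ?_, fun i => ?_⟩
    · rcases Finset.mem_union.1 hj with h1 | h1
      · exact Finset.mem_union_left _ (h.symm i j h1)
      · exact Finset.mem_union_right _ (h'.symm i j h1)
    · exact (Finset.card_union_le _ _).trans (Nat.add_le_add (h.card i) (h'.card i))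

end Pool.Agent.PX.H48
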